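import Mathlib
import Pool.Agent.LeoD.LocStmts

/-!
# Squad LEOD, module DRT: a double root modulo p
-/

set_option autoImplicit false

open NumberField IsDedekindDomain Module
open Pool.Agent.LeoK Pool.Agent.LeoG Pool.Agent.LeoC

namespace Pool.Agent.LeoD.H83

open Polynomial in
/-- A cubic polynomial with discriminant zero over a perfect field has a double root. -/
theorem dbl_root {K : Type} [Field K] [PerfectField K] (A B C D : K) (hA : A ≠ 0)
    (hd : B ^ 2 * C ^ 2 - 4 * A * C ^ 3 - 4 * B ^ 3 * D - 27 * A ^ 2 * D ^ 2 +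
      18 * A * B * C * D = 0) :
    ∃ a : K, A * a ^ 3 + B * a ^ 2 + C * a + D = 0 ∧ 3 * A * a ^ 2 + 2 * B * a + C = 0 := by
  classical
  let P : Cubic K := ⟨A, B, C, D⟩
  have hPa : P.a ≠ 0 := hA
  have hP0 : P.toPoly ≠ 0 := Cubic.ne_zero_of_a_ne_zero hPa
  have hdeg : P.toPoly.natDegree = 3 := Cubic.natDegree_of_a_ne_zero hPa
  have hsep : ¬ P.toPoly.Separable := by
    intro hs
    let φ : K →+* AlgebraicClosure K := algebraMap K (AlgebraicClosure K)
    have hsp : (P.toPoly.map φ).Splits := IsAlgClosed.splits _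
    have h1 : (Cubic.map φ P).roots.Nodup := by
      rw [Cubic.map_roots]
      exact nodup_roots hs.map
    have h2 := (Cubic.discr_ne_zero_iff_roots_nodup hPa hsp).2 h1
    exact h2 hd
  rw [PerfectField.separable_iff_squarefree] at hsep
  unfold Squarefree at hsep
  push Not at hsep
  obtain ⟨q, hq, hqu⟩ := hsep
  have hq0 : q ≠ 0 := by
    rintro rfl
    rw [zero_mul, zero_dvd_iff] at hq
    exact hP0 hq
  have hqd : q.natDegree = 1 := by
    have h1 := natDegree_le_of_dvd hq hP0
    rw [natDegree_mul hq0 hq0, hdeg] at h1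
    have h2 : q.natDegree ≠ 0 := by
      intro h
      apply hqu
      rw [eq_C_of_natDegree_eq_zero h]
      rw [isUnit_C]
      refine IsUnit.mk0 _ ?_
      intro h0
      apply hq0
      rw [eq_C_of_natDegree_eq_zero h, h0, C_0]
    omega
  obtain ⟨a, ha⟩ := exists_root_of_degree_eq_one (p := q)
    (by rw [degree_eq_natDegree hq0, hqd]; rfl)
  refine ⟨a, ?_, ?_⟩
  · obtain ⟨r, hr⟩ := hq
    have h1 : P.toPoly.eval a = 0 := by
      rw [hr, eval_mul, eval_mul, ha.eq_zero, zero_mul, zero_mul]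
    simpa [P, Cubic.toPoly] using h1
  · obtain ⟨r, hr⟩ := hq
    have h1 : P.toPoly.derivative.eval a = 0 := by
      rw [hr, derivative_mul, derivative_mul, eval_add, eval_mul, eval_mul, eval_add, eval_mul,
        eval_mul, eval_mul, ha.eq_zero]
      ring
    have h2 : P.toPoly.derivative.eval a = 3 * A * a ^ 2 + 2 * B * a + C := by
      simp [P, Cubic.toPoly]
      ring
    rw [← h2, h1]

/-- A binary cubic form with discriminant zero over a perfect field has a singular point. -/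
theorem sing {K : Type} [Field K] [PerfectField K] (A B C D : K)
    (hd : B ^ 2 * C ^ 2 - 4 * A * C ^ 3 - 4 * B ^ 3 * D - 27 * A ^ 2 * D ^ 2 +
      18 * A * B * C * D = 0) :
    ∃ y w : K, (y ≠ 0 ∨ w ≠ 0) ∧ A * y ^ 3 + B * y ^ 2 * w + C * y * w ^ 2 + D * w ^ 3 = 0 ∧
      3 * A * y ^ 2 + 2 * B * y * w + C * w ^ 2 = 0 ∧
      B * y ^ 2 + 2 * C * y * w + 3 * D * w ^ 2 = 0 := by
  by_cases hA : A = 0
  · by_cases hD : D = 0
    · subst hA hD
      have h : B ^ 2 * C ^ 2 = 0 := by linear_combination hd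
      rcases mul_eq_zero.1 h with h | h
      · have hB : B = 0 := pow_eq_zero_iff (two_ne_zero) |>.1 h
        exact ⟨1, 0, Or.inl one_ne_zero, by ring, by ring, by rw [hB]; ring⟩
      · have hC : C = 0 := pow_eq_zero_iff (two_ne_zero) |>.1 h
        exact ⟨0, 1, Or.inr one_ne_zero, by ring, by rw [hC]; ring, by ring⟩
    · obtain ⟨a, h1, h2⟩ := dbl_root D C B A hD (by linear_combination hd)
      refine ⟨1, a, Or.inl one_ne_zero, by linear_combination h1, ?_, by linear_combination h2⟩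
      linear_combination 3 * h1 - a * h2
  · obtain ⟨a, h1, h2⟩ := dbl_root A B C D hA hd
    refine ⟨a, 1, Or.inr one_ne_zero, by linear_combination h1, by linear_combination h2, ?_⟩
    linear_combination 3 * h1 - a * h2

end Pool.Agent.LeoD.H83

namespace Pool.Agent.LeoD

open H83

theorem drt : DrtStmt := by
  intro k _ _ p v hv
  have hmax : p.asIdeal.IsMaximal := p.isMaximal
  let _ : Field (𝓞 k ⧸ p.asIdeal) := Ideal.Quotient.field p.asIdeal
  have hfin : Finite (𝓞 k ⧸ p.asIdeal) := Ideal.finiteQuotientOfFreeOfNeBot _ p.ne_bot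
  let φ : 𝓞 k →+* 𝓞 k ⧸ p.asIdeal := Ideal.Quotient.mk p.asIdeal
  have h0 : ∀ x : 𝓞 k, φ x = 0 ↔ x ∈ p.asIdeal := fun x => Ideal.Quotient.eq_zero_iff_mem
  have hd : φ (v 1) ^ 2 * φ (v 2) ^ 2 - 4 * φ (v 0) * φ (v 2) ^ 3 - 4 * φ (v 1) ^ 3 * φ (v 3) -
      27 * φ (v 0) ^ 2 * φ (v 3) ^ 2 + 18 * φ (v 0) * φ (v 1) * φ (v 2) * φ (v 3) = 0 := by
    have h1 := (h0 _).2 hv
    simp only [mm, dsc, map_neg, map_add, map_sub, map_mul, map_pow, map_ofNat] at h1
    linear_combination -h1
  obtain ⟨y', w', hne, h1, h2, h3⟩ := sing _ _ _ _ hd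
  obtain ⟨y, hy⟩ := Ideal.Quotient.mk_surjective y'
  obtain ⟨w, hw⟩ := Ideal.Quotient.mk_surjective w'
  have hy' : φ y = y' := hy
  have hw' : φ w = w' := hw
  have key : ∀ x z : 𝓞 k, gact v x y z w 2 ∈ p.asIdeal ∧ gact v x y z w 3 ∈ p.asIdeal := by
    intro x z
    constructor
    · rw [← h0]
      have e : gact v x y z w 2 = x * (3 * v 0 * y ^ 2 + 2 * v 1 * y * w + v 2 * w ^ 2) +
          z * (v 1 * y ^ 2 + 2 * v 2 * y * w + 3 * v 3 * w ^ 2) := by
        simp only [gact, Matrix.cons_val]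
        ring
      rw [e]
      simp only [map_add, map_mul, map_pow, map_ofNat, hy', hw']
      rw [h2, h3]
      ring
    · rw [← h0]
      have e : gact v x y z w 3 = v 0 * y ^ 3 + v 1 * y ^ 2 * w + v 2 * y * w ^ 2 + v 3 * w ^ 3 := by
        simp only [gact, gval, Matrix.cons_val]
      rw [e]
      simp only [map_add, map_mul, map_pow, hy', hw']
      exact h1
  by_cases hw0 : w' = 0
  · have hy0 : y' ≠ 0 := by
      rcases hne with h | h
      · exact h
      · exact absurd hw0 h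
    refine ⟨0, y, 1, w, ?_, key 0 1⟩
    rw [← h0]
    simp only [map_sub, map_mul, map_zero, map_one, hy']
    intro h
    apply hy0
    linear_combination -h
  · refine ⟨1, y, 0, w, ?_, key 1 0⟩
    rw [← h0]
    simp only [map_sub, map_mul, map_zero, map_one, hw']
    intro h
    apply hw0
    linear_combination h

end Pool.Agent.LeoD
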